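import Pool.Agent.Work.MP_db9399_h.Interface
import Pool.Agent.Work.MP_db9399_ox_helper35.OXDA

/-!
# MP_db9399, block OXDH (helper69), part B: what the engine does at the gadgets

Copy of `ox_helper35/OXDB` with occupied sets, cut edges and star edges without colour.
-/

set_option autoImplicit false

namespace Pool.Agent.Work.MP_db9399_h.helper69

open Finset Classical
open Pool.Agent.Work.MP_db9399_all (nb)
open Pool.Agent.Work.MP_db9399_cg (sp)
open Pool.Agent.Work.MP_db9399_sg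
open Pool.Agent.Work.MP_db9399_ox (sdg sgP Mt1 GG nnj rcl)
open Pool.Agent.Work.MP_db9399_eo
open Pool.Agent.Work.MP_db9399_sg.helper79 (mem_nsd mem_nod)
open Pool.Agent.Work.MP_db9399_ox.helper35 (cons mem_nb ev)

universe u

/-- the numbers -/
theorem nums (ε₀ C ε a : ℝ) (h1 : 0 < ε₀) (h2 : ε₀ ≤ 1 / 2500) (hC : 4 ≤ C) (hε : 0 < ε)
    (ha : 0 < a) (ha' : a ≤ 1 / 100) : ∃ d0 : ℕ, ∀ d : ℕ, d0 ≤ d → 1 ≤ d ∧
      5 + 2 * sp d a + (d : ℝ) ^ (10 * ε₀) ≤ (d : ℝ) ^ (1 / 200 : ℝ) ∧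
      8 ≤ ε * d ∧ sp d a + (d : ℝ) ^ (1 - ε₀) ≤ ε * d ∧
      4 * (d : ℝ) ^ (-ε₀) ≤ ε ∧ 8 * sp d a ≤ ε * (d : ℝ) ^ (1 - a) ∧
      ∀ D r : ℕ, (d : ℝ) ≤ C * D → (r : ℝ) + 2 ≤ (D : ℝ) ^ (1 - a / 3) → (r : ℝ) ≤ D / 2 := by
  obtain ⟨n1, k1⟩ := ev 8 (1 / 250) (1 / 200) (by norm_num)
  obtain ⟨n2, k2⟩ := ev (8 / ε) 0 1 (by norm_num)
  obtain ⟨n3, k3⟩ := ev (2 / ε) (a / 10) 1 (by linarith)
  obtain ⟨n4, k4⟩ := ev (2 / ε) (1 - ε₀) 1 (by linarith)
  obtain ⟨n5, k5⟩ := ev (4 / ε) (-ε₀) 0 (by linarith)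
  obtain ⟨n6, k6⟩ := ev (8 / ε) (a / 10) (1 - a) (by linarith)
  obtain ⟨n7, k7⟩ := ev 2 (1 - a / 3) 1 (by linarith)
  refine ⟨n1 + n2 + n3 + n4 + n5 + n6 + ⌈C * n7⌉₊, fun d hd => ?_⟩
  have hd1 := (k1 d (by omega)).1
  have hdr : (1 : ℝ) ≤ d := by exact_mod_cast hd1
  refine ⟨hd1, ?_, ?_, ?_, ?_, ?_, ?_⟩
  · have e1 := (k1 d (by omega)).2
    have e2 : sp d a ≤ (d : ℝ) ^ (1 / 250 : ℝ) :=
      Real.rpow_le_rpow_of_exponent_le hdr (by linarith)
    have e3 : (d : ℝ) ^ (10 * ε₀) ≤ (d : ℝ) ^ (1 / 250 : ℝ) :=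
      Real.rpow_le_rpow_of_exponent_le hdr (by linarith)
    have e4 : (1 : ℝ) ≤ (d : ℝ) ^ (1 / 250 : ℝ) := Real.one_le_rpow hdr (by norm_num)
    linarith
  · have e1 := (k2 d (by omega)).2
    rw [Real.rpow_zero, Real.rpow_one, mul_one, div_le_iff₀ hε] at e1
    linarith
  · have e1 := (k3 d (by omega)).2
    have e2 := (k4 d (by omega)).2
    rw [Real.rpow_one, div_mul_eq_mul_div, div_le_iff₀ hε] at e1 e2
    unfold sp
    linarith
  · have e1 := (k5 d (by omega)).2
    rw [Real.rpow_zero, div_mul_eq_mul_div, div_le_iff₀ hε] at e1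
    linarith
  · have e1 := (k6 d (by omega)).2
    rw [div_mul_eq_mul_div, div_le_iff₀ hε] at e1
    unfold sp
    linarith
  · intro D r hD hr
    have h3 : C * n7 ≤ C * D := by
      refine le_trans ?_ hD
      refine le_trans (Nat.le_ceil _) ?_
      exact_mod_cast (by omega : ⌈C * n7⌉₊ ≤ d)
    have h4 : (n7 : ℝ) ≤ D := le_of_mul_le_mul_left h3 (by linarith)
    have h5 : n7 ≤ D := by exact_mod_cast h4
    have e1 := (k7 D h5).2
    rw [Real.rpow_one] at e1
    linarith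

variable {V I I' J : Type u} [Fintype V] [Fintype I] [Fintype I'] [Fintype J] {P : ℕ}
  {cl : Fin P → J} {H Gh S : J → SimpleGraph V} {O W VH K : Finset V} {A : J → Finset V}
  {nd : J → V → Option (I × Bool)} {pr : I → I'} {d : ℕ} {D r : J → ℕ}
  {a a1 β C C' ε1 ρ1 : ℝ} {L : ℕ} {N0 N F : Fin P → V → V} {X : V → Finset (Fin P)}
  {oc Dr : Fin P → Finset V}

/-- real pairs of the matching `F b` -/
def RF (W : Finset V) (F : Fin P → V → V) (b : Fin P) (v : V) : Prop :=
  F b v ≠ v ∧ v ∈ W ∧ F b v ∈ W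

theorem memW (hC : ClsH H Gh O W VH A nd pr d D r a β C C')
    (hM : Mt0H H S cl O VH X nd pr d D r a ε1 ρ1 L N0) {b : Fin P} {v : V} (h : N0 b v ≠ v) :
    v ∈ W ∧ N0 b v ∈ W :=
  ⟨hC.HW _ _ _ (hM.NG b v h).1, hC.HW _ _ _ (hM.NG b v h).1.symm⟩

theorem notO (hC : ClsH H Gh O W VH A nd pr d D r a β C C') {j : J} {v : V}
    (h : nd j v ≠ none) : v ∉ O := fun hO =>
  h (((hC.wld j).cov v ((hC.wld j).nA v h)).mp hO)

theorem cutN_ne {b : Fin P} {v : V} (h : cutN Dr N b v ≠ v) : v ∉ Dr b ∧ cutN Dr N b v = N b v := by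
  unfold cutN at h ⊢
  by_cases h1 : v ∈ Dr b
  · rw [if_pos h1] at h
    exact absurd rfl h
  · rw [if_neg h1]
    exact ⟨h1, rfl⟩

/-- pairs of `N b` -/
theorem Npair (hC : ClsH H Gh O W VH A nd pr d D r a β C C')
    (hM : Mt0H H S cl O VH X nd pr d D r a ε1 ρ1 L N0) (hN : Mt1 S cl W nd N0 N) {b : Fin P} {v : V}
    (h : N b v ≠ v) : (N0 b v ≠ v ∧ (H (cl b)).Adj v (N b v) ∧ v ∈ W ∧ N b v ∈ W) ∨
      (N0 b v = v ∧ ¬ (v ∈ W ∧ N b v ∈ W) ∧
        ∃ i s, nd (cl b) v = some (i, s) ∧ nd (cl b) (N b v) = some (i, !s)) := by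
  by_cases h0 : N0 b v = v
  · obtain ⟨i, s, h1, h2, -, h3⟩ := hN.fil b v h0 h
    exact Or.inr ⟨h0, not_and_or.mpr h3, i, s, h1, h2⟩
  · refine Or.inl ⟨h0, ?_⟩
    rw [hN.ext b v h0]
    exact ⟨(hM.NG b v h0).1, memW hC hM h0⟩

/-- pairs of `F b` -/
theorem Fpair (hC : ClsH H Gh O W VH A nd pr d D r a β C C')
    (hS : ∀ j, S j ≤ Gh j)
    (hM : Mt0H H S cl O VH X nd pr d D r a ε1 ρ1 L N0) (hN : Mt1 S cl W nd N0 N)
    (hF : ∀ b v, F b v ≠ v → F b v = cutN Dr N b v ∨ (S (cl b)).Adj v (F b v)) {b : Fin P} {v : V}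
    (h : F b v ≠ v) : (v ∈ W ∧ F b v ∈ W ∧ (H (cl b)).Adj v (F b v)) ∨
      (¬ (v ∈ W ∧ F b v ∈ W) ∧
        ∃ i s, nd (cl b) v = some (i, s) ∧ nd (cl b) (F b v) = some (i, !s)) := by
  rcases hF b v h with h1 | h1
  · rw [h1] at h
    obtain ⟨-, h0⟩ := cutN_ne h
    rw [h0] at h h1
    rw [h1]
    rcases Npair hC hM hN h with ⟨h2, h3, h4, h5⟩ | ⟨h2, h3, h4⟩
    · exact Or.inl ⟨h4, h5, h3⟩
    · exact Or.inr ⟨h3, h4⟩
  · by_cases h2 : (H (cl b)).Adj v (F b v)
    · exact Or.inl ⟨hC.HW _ _ _ h2, hC.HW _ _ _ h2.symm, h2⟩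
    · exact Or.inr ⟨not_and_or.mpr (hC.dum _ _ _ (hS _ h1) h2),
        (hC.wld (cl b)).gad _ _ (hS _ h1) h2⟩

theorem fz_los {b : Fin P} {v : V} (h : v ∈ fzO O oc (cutN Dr N) b) (h1 : N b v ≠ v) :
    v ∈ losH oc Dr N b := by
  unfold fzO at h
  rw [Finset.mem_filter] at h
  unfold losH
  rw [Finset.mem_filter]
  refine ⟨Finset.mem_univ _, ?_⟩
  by_cases h2 : v ∈ Dr b
  · exact Or.inl h2
  · have h3 : cutN Dr N b v = N b v := by
      unfold cutN
      rw [if_neg h2]
    rw [h3] at h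
    rcases h.2.2 with h4 | h4
    · exact absurd h4 h1
    · exact Or.inr (Or.inr h4)

/-- number of the vertices of the node `i` which lose their edge of colour `b` -/
noncomputable def ldc (nd : V → Option (I × Bool)) (oc Dr : Fin P → Finset V)
    (N : Fin P → V → V) (b : Fin P) (i : I) : ℝ :=
  (((nod nd i).filter fun v => v ∈ losH oc Dr N b).card : ℝ)

/-- the signed number of the real pairs, before and after the engine -/
theorem sgn_diff (hC : ClsH H Gh O W VH A nd pr d D r a β C C')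
    (hS : ∀ j, S j ≤ Gh j)
    (hM : Mt0H H S cl O VH X nd pr d D r a ε1 ρ1 L N0) (hN : Mt1 S cl W nd N0 N)
    (hFF : ∀ b v, F b (F b v) = v)
    (hF : ∀ b v, F b v ≠ v → F b v = cutN Dr N b v ∨ (S (cl b)).Adj v (F b v))
    (hFz : ∀ b v, v ∈ fzO O oc (cutN Dr N) b → F b v = v) (b : Fin P) (i : I) :
    |((((nsd (nd (cl b)) i false).filter fun v => RF W F b v).card : ℝ) -
      ((nsd (nd (cl b)) i true).filter fun v => RF W F b v).card) -
        (sgn (nd (cl b)) N0 i b : ℝ)| ≤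
      ldc (nd (cl b)) oc Dr N b i + msO O (nnj nd) oc (cutN Dr N) F (cl b) i b := by
  have h1 := cons (nd (cl b)) (RF W F b) (F b) (hFF b) (fun v h => h.1)
    (fun v h => ⟨by rw [hFF]; exact fun e => h.1 e.symm, h.2.2, by rw [hFF]; exact h.2.1⟩)
    (fun v h h' => by
      rcases Fpair hC hS hM hN hF h with h2 | h2
      · exact absurd ⟨h, h2.1, h2.2.1⟩ h'
      · exact h2.2) i ((hC.wld (cl b)).sz i)
  obtain ⟨R, hR⟩ : ∃ R : V → Prop, ∀ v, R v ↔ N0 b v ≠ v := ⟨_, fun _ => Iff.rfl⟩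
  have hcong : ∀ s, ((nsd (nd (cl b)) i s).filter fun v => R v) =
      (nsd (nd (cl b)) i s).filter fun v => N0 b v ≠ v := by
    intro s
    ext v
    rw [Finset.mem_filter, Finset.mem_filter, hR]
  have h2 := cons (nd (cl b)) R (N b) (hN.NN b)
    (fun v h => by
      rw [hR] at h
      rw [hN.ext b v h]
      exact h)
    (fun v h => by
      rw [hR] at h ⊢
      rw [hN.ext b v h, hM.NN]
      exact fun e => h e.symm)
    (fun v h h' => by
      rw [hR] at h'
      rcases Npair hC hM hN h with h2 | h2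
      · exact absurd h2.1 h'
      · exact h2.2.2) i ((hC.wld (cl b)).sz i)
  rw [hcong, hcong] at h2
  have h3 : ∀ s, ((nsd (nd (cl b)) i s).filter fun v => F b v = v).card =
      ((nsd (nd (cl b)) i s).filter fun v => N b v = v).card +
      ((nsd (nd (cl b)) i s).filter fun v => F b v = v ∧ N b v ≠ v).card := by
    intro s
    rw [← Finset.card_union_of_disjoint]
    · congr 1
      ext v
      rw [Finset.mem_union, Finset.mem_filter, Finset.mem_filter, Finset.mem_filter]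
      constructor
      · rintro ⟨e1, e2⟩
        by_cases e3 : N b v = v
        · exact Or.inl ⟨e1, e3⟩
        · exact Or.inr ⟨e1, e2, e3⟩
      · rintro (⟨e1, e2⟩ | ⟨e1, e2, e3⟩)
        · refine ⟨e1, hFz b v ?_⟩
          unfold fzO
          rw [Finset.mem_filter]
          refine ⟨Finset.mem_univ _, notO hC (by rw [mem_nsd.mp e1]; simp), Or.inl ?_⟩
          unfold cutN
          split_ifs
          · rfl
          · exact e2
        · exact ⟨e1, e2⟩
    · rw [Finset.disjoint_left]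
      intro v e1 e2
      rw [Finset.mem_filter] at e1 e2
      exact e2.2.2 e1.2
  have h4 : ((nsd (nd (cl b)) i false).filter fun v => F b v = v ∧ N b v ≠ v).card +
      ((nsd (nd (cl b)) i true).filter fun v => F b v = v ∧ N b v ≠ v).card ≤
      ((nod (nd (cl b)) i).filter fun v => v ∈ losH oc Dr N b).card +
      (univ.filter fun v => nnj nd (cl b) v = some i ∧ F b v = v ∧
        v ∉ fzO O oc (cutN Dr N) b).card := by
    rw [← Finset.card_union_of_disjoint]
    · refine le_trans (Finset.card_le_card ?_) (Finset.card_union_le _ _)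
      intro v hv
      have e1 : ∃ s, nd (cl b) v = some (i, s) ∧ F b v = v ∧ N b v ≠ v := by
        rw [Finset.mem_union, Finset.mem_filter, Finset.mem_filter, mem_nsd, mem_nsd] at hv
        rcases hv with hv | hv
        · exact ⟨_, hv⟩
        · exact ⟨_, hv⟩
      obtain ⟨s, e2, e3, e4⟩ := e1
      rw [Finset.mem_union, Finset.mem_filter, Finset.mem_filter]
      by_cases e5 : v ∈ fzO O oc (cutN Dr N) b
      · exact Or.inl ⟨mem_nod.mpr ⟨s, e2⟩, fz_los e5 e4⟩
      · right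
        refine ⟨Finset.mem_univ _, ?_, e3, e5⟩
        unfold nnj
        rw [e2]
        rfl
    · rw [Finset.disjoint_left]
      intro v e1 e2
      rw [Finset.mem_filter, mem_nsd] at e1 e2
      have := e1.1.symm.trans e2.1
      simp at this
  have h5 : sgn (nd (cl b)) N0 i b =
      (((nsd (nd (cl b)) i false).filter fun v => N0 b v ≠ v).card : ℤ) -
        ((nsd (nd (cl b)) i true).filter fun v => N0 b v ≠ v).card := rfl
  have h6 := h3 false
  have h7 := h3 true
  have h8 : |((((nsd (nd (cl b)) i false).filter fun v => RF W F b v).card : ℤ) -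
      ((nsd (nd (cl b)) i true).filter fun v => RF W F b v).card) -
        sgn (nd (cl b)) N0 i b| ≤
      (((nod (nd (cl b)) i).filter fun v => v ∈ losH oc Dr N b).card +
      (univ.filter fun v => nnj nd (cl b) v = some i ∧ F b v = v ∧
        v ∉ fzO O oc (cutN Dr N) b).card : ℕ) := by
    rw [abs_le]
    constructor
    · omega
    · omega
  unfold msO ldc
  exact_mod_cast h8

/-- the real pairs in a node -/
theorem load_diff (hC : ClsH H Gh O W VH A nd pr d D r a β C C')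
    (hM : Mt0H H S cl O VH X nd pr d D r a ε1 ρ1 L N0) (hN : Mt1 S cl W nd N0 N)
    (hFz : ∀ b v, v ∈ fzO O oc (cutN Dr N) b → F b v = v) (b : Fin P) (i : I) (s : Bool) :
    ((nsd (nd (cl b)) i s).filter fun v => RF W F b v).card ≤
      ((nsd (nd (cl b)) i s).filter fun v => N0 b v ≠ v).card +
      (univ.filter fun v => nnj nd (cl b) v = some i ∧ v ∉ fzO O oc (cutN Dr N) b ∧
        F b v ≠ cutN Dr N b v).card := by
  refine le_trans (Finset.card_le_card ?_) (Finset.card_union_le _ _)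
  intro v hv
  rw [Finset.mem_filter, mem_nsd] at hv
  obtain ⟨h1, h2, h3, h4⟩ := hv
  rw [Finset.mem_union, Finset.mem_filter, Finset.mem_filter, mem_nsd]
  by_cases h5 : F b v = cutN Dr N b v
  · left
    refine ⟨h1, ?_⟩
    rw [h5] at h2 h4
    obtain ⟨-, h0⟩ := cutN_ne h2
    rw [h0] at h2 h4
    rcases Npair hC hM hN h2 with h6 | h6
    · exact h6.1
    · exact absurd ⟨h3, h4⟩ h6.2.1
  · right
    refine ⟨Finset.mem_univ _, ?_, fun h => h2 (hFz b v h), h5⟩
    unfold nnj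
    rw [h1]
    rfl

/-- the colours at a vertex of a gadget -/
theorem lft_diff (hC : ClsH H Gh O W VH A nd pr d D r a β C C')
    (hM : Mt0H H S cl O VH X nd pr d D r a ε1 ρ1 L N0) (hN : Mt1 S cl W nd N0 N)
    (j : J) (v : V) :
    (nb (H j) v).card ≤ (univ.filter fun b => cl b = j ∧ RF W F b v).card +
      ((nb (S j) v).filter fun w => (H j).Adj v w).card +
      ((rcl N0 v).filter fun b => cl b = j ∧ v ∉ fzO O oc (cutN Dr N) b ∧
        F b v ≠ cutN Dr N b v).card +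
      (univ.filter fun b => v ∈ losH oc Dr N b).card + unc (H j) (S j) N0 v := by
  have h0 : (nb (H j) v).card ≤ ((nb (S j) v).filter fun w => (H j).Adj v w).card +
      (univ.filter fun b => cl b = j ∧ N0 b v ≠ v).card + unc (H j) (S j) N0 v := by
    have e1 : nb (H j) v ⊆ (((nb (S j) v).filter fun w => (H j).Adj v w) ∪
        (univ.filter fun b => cl b = j ∧ N0 b v ≠ v).image fun b => N0 b v) ∪
        (nb (H j) v).filter fun w => ¬ (S j).Adj v w ∧ ¬ ∃ b, N0 b v = w := by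
      intro w hw
      have hw' := mem_nb.mp hw
      rw [Finset.mem_union, Finset.mem_union, Finset.mem_filter, mem_nb, Finset.mem_image,
        Finset.mem_filter]
      by_cases h1 : (S j).Adj v w
      · exact Or.inl (Or.inl ⟨h1, hw'⟩)
      · by_cases h2 : ∃ b, N0 b v = w
        · obtain ⟨b, h3⟩ := h2
          have h4 : N0 b v ≠ v := by
            rw [h3]
            exact hw'.ne'
          have h5 : cl b = j := by
            by_contra h6
            have h7 := (hM.NG b v h4).1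
            rw [h3] at h7
            exact hC.dis (cl b) j v w h6 h7 hw'
          exact Or.inl (Or.inr ⟨b, Finset.mem_filter.mpr ⟨Finset.mem_univ _, h5, h4⟩, h3⟩)
        · exact Or.inr ⟨hw, h1, h2⟩
    refine (Finset.card_le_card e1).trans ((Finset.card_union_le _ _).trans ?_)
    unfold unc
    refine Nat.add_le_add_right ((Finset.card_union_le _ _).trans
      (Nat.add_le_add_left Finset.card_image_le _)) _
  have h1 : (univ.filter fun b => cl b = j ∧ N0 b v ≠ v).card ≤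
      (univ.filter fun b => cl b = j ∧ RF W F b v).card +
      ((rcl N0 v).filter fun b => cl b = j ∧ v ∉ fzO O oc (cutN Dr N) b ∧
        F b v ≠ cutN Dr N b v).card +
      (univ.filter fun b => v ∈ losH oc Dr N b).card := by
    refine le_trans (Finset.card_le_card (t := ((univ.filter fun b => cl b = j ∧ RF W F b v) ∪
      ((rcl N0 v).filter fun b => cl b = j ∧ v ∉ fzO O oc (cutN Dr N) b ∧
        F b v ≠ cutN Dr N b v)) ∪
      (univ.filter fun b => v ∈ losH oc Dr N b)) ?_) ((Finset.card_union_le _ _).trans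
        (Nat.add_le_add_right (Finset.card_union_le _ _) _))
    intro b hb
    rw [Finset.mem_filter] at hb
    obtain ⟨-, e1, e2⟩ := hb
    rw [Finset.mem_union, Finset.mem_union, Finset.mem_filter, Finset.mem_filter, Finset.mem_filter]
    have e3 : N b v = N0 b v := hN.ext b v e2
    have e4 := memW hC hM e2
    by_cases e7 : v ∈ Dr b
    · refine Or.inr ⟨Finset.mem_univ _, ?_⟩
      unfold losH
      rw [Finset.mem_filter]
      exact ⟨Finset.mem_univ _, Or.inl e7⟩
    · have e8 : cutN Dr N b v = N0 b v := by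
        unfold cutN
        rw [if_neg e7]
        exact e3
      by_cases e5 : F b v = cutN Dr N b v
      · refine Or.inl (Or.inl ⟨Finset.mem_univ _, e1, ?_, e4.1, ?_⟩)
        · rw [e5, e8]
          exact e2
        · rw [e5, e8]
          exact e4.2
      · by_cases e6 : v ∈ fzO O oc (cutN Dr N) b
        · refine Or.inr ⟨Finset.mem_univ _, fz_los e6 ?_⟩
          rw [e3]
          exact e2
        · refine Or.inl (Or.inr ⟨?_, e1, e6, e5⟩)
          unfold rcl
          rw [Finset.mem_filter]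
          exact ⟨Finset.mem_univ _, e2⟩
  omega

/-- number of the colours of real edges at a vertex -/
theorem rcl_card (hM : Mt0H H S cl O VH X nd pr d D r a ε1 ρ1 L N0) (v : V) :
    (rcl N0 v).card ≤ ∑ j, (nb (H j) v).card := by
  have h1 : (rcl N0 v).card ≤ (univ.biUnion fun j => nb (H j) v).card := by
    refine Finset.card_le_card_of_injOn (fun b => N0 b v) ?_ ?_
    · intro b hb
      have hb' : b ∈ rcl N0 v := hb
      unfold rcl at hb'
      rw [Finset.mem_filter] at hb'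
      simp only [Finset.coe_biUnion, Set.mem_iUnion]
      exact ⟨cl b, Finset.mem_coe.mpr (Finset.mem_univ _),
        Finset.mem_coe.mpr (mem_nb.mpr (hM.NG b v hb'.2).1)⟩
    · intro b hb b' hb' h
      have hb1 : b ∈ rcl N0 v := hb
      unfold rcl at hb1
      rw [Finset.mem_filter] at hb1
      exact hM.Nd b b' v hb1.2 h
  exact h1.trans Finset.card_biUnion_le

section Real

variable {E : SimpleGraph V} {U Km : Finset V} {e2 C2 C3 ε ε₀ C₀ B0 : ℝ} {G : SimpleGraph V}
  {Fb : V → Finset (Fin P)} {c : V → Option (Fin P)}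

theorem load_real (hC : ClsH H Gh O W VH A nd pr d D r a β C C')
    (hM : Mt0H H S cl O VH X nd pr d D r a ε1 ρ1 L N0) (hN : Mt1 S cl W nd N0 N)
    (hO : OutO G S cl O (nnj nd) d r ε ε₀ C₀ B0 (rcl N0) oc (cutN Dr N) Km F) (b : Fin P) (i : I)
    (s : Bool) :
    (((nsd (nd (cl b)) i s).filter fun v => RF W F b v).card : ℝ) ≤
      8 * ((∑ v ∈ nsd (nd (cl b)) i s, ((nb (H (cl b)) v).card : ℝ)) /
        ((D (cl b) : ℝ) - r (cl b))) + sp d a + (d : ℝ) ^ (1 - ε₀) := by
  have h1 := load_diff hC hM hN hO.Fz b i s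
  have h2 := hM.load b i s
  have h3 : ((univ.filter fun v => nnj nd (cl b) v = some i ∧
      v ∉ fzO O oc (cutN Dr N) b ∧ F b v ≠ cutN Dr N b v).card : ℝ) ≤ (d : ℝ) ^ (1 - ε₀) :=
    hO.Fw (cl b) i b rfl
  have h1' : (((nsd (nd (cl b)) i s).filter fun v => RF W F b v).card : ℝ) ≤
      (((nsd (nd (cl b)) i s).filter fun v => N0 b v ≠ v).card : ℝ) +
      ((univ.filter fun v => nnj nd (cl b) v = some i ∧
        v ∉ fzO O oc (cutN Dr N) b ∧ F b v ≠ cutN Dr N b v).card : ℝ) := by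
    exact_mod_cast h1
  linarith

theorem lft_real (hC : ClsH H Gh O W VH A nd pr d D r a β C C')
    {βS ρ2 : ℝ} {K' : Finset V}
    (hR : ∀ j, ResH (H j) (Gh j) (S j) O (A j) (D j) (r j) a βS ρ2 K')
    (hM : Mt0H H S cl O VH X nd pr d D r a ε1 ρ1 L N0) (hN : Mt1 S cl W nd N0 N)
    (hO1 : Own1H E H S cl O U VH X Fb nd d r a1 C3 C2 e2 ε1 L c Dr N) (hC0 : 0 ≤ C₀)
    (hO : OutO G S cl O (nnj nd) d r ε ε₀ C₀ B0 (rcl N0) (ocH c X) (cutN Dr N) Km F) (j : J)
    (v : V) (hv : nd j v ≠ none) :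
    ((nb (H j) v).card : ℝ) ≤
      ((univ.filter fun b => cl b = j ∧ RF W F b v).card : ℝ) +
      (2 * (((nb (H j) v).card : ℝ) / D j) + ρ2) * r j +
      (C₀ * (r j / d) * (∑ j', ((nb (H j') v).card : ℝ)) + (d : ℝ) ^ (-ε₀) * r j) + sp d a1 +
      sp d a := by
  have h1 := lft_diff hC hM hN (F := F) (oc := ocH c X) (Dr := Dr) j v
  have h1' : ((nb (H j) v).card : ℝ) ≤
      ((univ.filter fun b => cl b = j ∧ RF W F b v).card : ℝ) +
      (((nb (S j) v).filter fun w => (H j).Adj v w).card : ℝ) +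
      (((rcl N0 v).filter fun b => cl b = j ∧ v ∉ fzO O (ocH c X) (cutN Dr N) b ∧
        F b v ≠ cutN Dr N b v).card : ℝ) +
      ((univ.filter fun b => v ∈ losH (ocH c X) Dr N b).card : ℝ) +
      (unc (H j) (S j) N0 v : ℝ) := by
    exact_mod_cast h1
  have h3 := (hR j).lg v (notO hC hv)
  have h4 : (((rcl N0 v).filter fun b => cl b = j ∧ v ∉ fzO O (ocH c X) (cutN Dr N) b ∧
      F b v ≠ cutN Dr N b v).card : ℝ) ≤
      C₀ * (r j / d) * (rcl N0 v).card + (d : ℝ) ^ (-ε₀) * r j := hO.Ft j v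
  have h5 := hO1.vdc v
  have h6 : ((rcl N0 v).card : ℝ) ≤ ∑ j', ((nb (H j') v).card : ℝ) := by
    exact_mod_cast rcl_card hM v
  have h7 := hM.un1 j v
  have h9 : C₀ * (r j / d) * (rcl N0 v).card ≤ C₀ * (r j / d) *
      (∑ j', ((nb (H j') v).card : ℝ)) :=
    mul_le_mul_of_nonneg_left h6 (by positivity)
  linarith

end Real

end Pool.Agent.Work.MP_db9399_h.helper69
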